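import Mathlib

namespace Pool.Agent.Results.MP_1cad20_al.Duo

open Polynomial

/-- `pw a n` is the power of `a` with exponent `n + 1` -/
def pw {R : Type} [Mul R] (a : R) : ℕ → R
  | 0 => a
  | n + 1 => pw a n * a

def WeaklyLeftDuo (R : Type) [NonUnitalRing R] : Prop :=
  ∀ a : R, ∃ (n : ℕ) (I : TwoSidedIdeal R), (I : Set R) = {b | ∃ r : R, b = r * pw a n}

section
variable {R : Type} [NonUnitalRing R]

lemma duo (h : WeaklyLeftDuo R) (c : R) :
    ∃ n, ∀ r s : R, ∃ t, r * pw c n * s = t * pw c n := by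
  obtain ⟨n, I, hI⟩ := h c
  refine ⟨n, fun r s => ?_⟩
  have h1 : r * pw c n ∈ (I : Set R) := by rw [hI]; exact ⟨r, rfl⟩
  have h2 : r * pw c n * s ∈ (I : Set R) := I.mul_mem_right _ _ h1
  rw [hI] at h2
  exact h2

lemma idem (h : WeaklyLeftDuo R) (e : R) (he : e * e = e) (r : R) : e * r * e = e * r := by
  obtain ⟨n, hn⟩ := duo h e
  have h1 : pw e n = e := by
    clear hn
    induction n with
    | zero => rfl
    | succ n ih => rw [pw, ih, he]
  obtain ⟨t, ht⟩ := hn e r
  rw [h1, he] at ht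
  rw [ht, mul_assoc, he]

lemma inr_pw (c : R) (n : ℕ) :
    ((pw c n : R) : Unitization ℤ R) = (c : Unitization ℤ R) ^ (n + 1) := by
  induction n with
  | zero => simp [pw]
  | succ n ih => rw [pw, Unitization.inr_mul, ih, ← pow_succ]

lemma pw_mul (c a : R) (h : c * a = 0) (n : ℕ) : pw c n * a = 0 := by
  cases n with
  | zero => exact h
  | succ n => rw [pw, mul_assoc, h, mul_zero]

lemma ex_inr (Z : Unitization ℤ R) (x : R) :
    ∃ w : R, (w : Unitization ℤ R) = Z * (x : Unitization ℤ R) := by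
  induction Z using Unitization.ind with
  | inl_add_inr z r =>
    refine ⟨z • x + r * x, ?_⟩
    rw [add_mul, Unitization.inl_mul_inr, Unitization.inr_add, Unitization.inr_mul]

lemma ex_idem {T : Type} [Ring T] (U : T) (n : ℕ) (h : U * (U - U * U) ^ (n + 1) * U = 0) :
    ∃ Z Z' : T, Z * U * (Z * U) = Z * U ∧ Z * U = 1 - Z' * (1 - U) := by
  have h2 : aeval U (X * (X - X * X) ^ (n + 1) * X : ℤ[X]) = 0 := by
    rw [map_mul, map_mul, map_pow, map_sub, map_mul, aeval_X, h]
  have hc : IsCoprime (X : ℤ[X]) (1 - X) := ⟨1, 1, by ring⟩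
  obtain ⟨A, B, hAB⟩ := hc.pow (m := n + 3) (n := n + 1)
  have he : aeval U (A * X ^ (n + 2)) * U = aeval U (A * X ^ (n + 3)) := by
    rw [pow_succ X (n + 2), ← mul_assoc, map_mul _ _ X, aeval_X]
  refine ⟨aeval U (A * X ^ (n + 2)), aeval U (B * (1 - X) ^ n), ?_, ?_⟩
  · rw [he, ← map_mul]
    have : A * X ^ (n + 3) * (A * X ^ (n + 3)) =
        A * X ^ (n + 3) - A * B * (X * (X - X * X) ^ (n + 1) * X) := by
      have h3 : (X - X * X : ℤ[X]) = X * (1 - X) := by ring
      rw [h3, mul_pow]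
      linear_combination (A * X ^ (n + 3)) * hAB
    rw [this, map_sub, map_mul _ (A * B), h2, mul_zero, sub_zero]
  · have : A * X ^ (n + 3) = 1 - B * (1 - X) ^ n * (1 - X) := by
      linear_combination hAB
    rw [he, this, map_sub, map_mul _ _ (1 - X), map_sub, aeval_X, map_one]

end

theorem result (R : Type) [NonUnitalRing R] (h : WeaklyLeftDuo R) (a x : R)
    (hx : a = x * (a * a)) : ∃ y : R, a = a * a * y := by
  obtain ⟨u, hu⟩ : ∃ u, u = x * a := ⟨_, rfl⟩
  have hua : u * a = a := by rw [hu, mul_assoc, ← hx]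
  have hg : (u - u * u) * a = 0 := by rw [sub_mul, mul_assoc u u, hua, hua, sub_self]
  obtain ⟨n, hn⟩ := duo h (u - u * u)
  obtain ⟨t, ht⟩ := hn u x
  have h1 : u * pw (u - u * u) n * u = 0 := by
    have : u * pw (u - u * u) n * x * a = t * pw (u - u * u) n * a := congrArg (· * a) ht
    rw [mul_assoc t, pw_mul _ _ hg, mul_zero, mul_assoc _ x a, ← hu] at this
    exact this
  obtain ⟨Z, Z', hZ, hZ'⟩ := ex_idem (u : Unitization ℤ R) n (by
    have := congrArg (fun r : R => (r : Unitization ℤ R)) h1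
    simpa [inr_pw, Unitization.inr_mul, Unitization.inr_sub] using this)
  obtain ⟨w, hw⟩ := ex_inr Z x
  have he : ((w * a : R) : Unitization ℤ R) = Z * (u : Unitization ℤ R) := by
    rw [Unitization.inr_mul, hw, hu, Unitization.inr_mul]
    exact mul_assoc Z _ _
  have hee : w * a * (w * a) = w * a := by
    apply Unitization.inr_injective (R := ℤ)
    rw [Unitization.inr_mul, he]
    exact hZ
  have hea : w * a * a = a := by
    apply Unitization.inr_injective (R := ℤ)
    rw [Unitization.inr_mul, he]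
    have h4 : (u : Unitization ℤ R) * (a : Unitization ℤ R) = a := by
      rw [← Unitization.inr_mul, hua]
    have h5 : ∀ {T : Type} [Ring T] (Z Z' U A : T), Z * U = 1 - Z' * (1 - U) → U * A = A →
        Z * U * A = A := by
      intro T _ Z Z' U A h h'
      rw [h, sub_mul, mul_assoc, sub_mul, h', one_mul, sub_self, mul_zero, sub_zero]
    exact h5 Z Z' _ _ hZ' h4
  have h5 : a * (w * a) = a := by
    have := idem h _ hee a
    rwa [hea] at this
  have h6 : a * w * a = a := by rw [mul_assoc, h5]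
  have h7 : a * w * (a * w) = a * w := by rw [← mul_assoc, h6]
  have h8 := idem h _ h7 a
  rw [h6] at h8
  exact ⟨w, by rw [mul_assoc, h8]⟩

end Pool.Agent.Results.MP_1cad20_al.Duo
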